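import Pool.Agent.V1138.AB.Fin

/-! Convexity of the mean abandonment rate in the M/M/m+M queue. -/

namespace Pool.Agent.Results.MP_e714e3_pr.StrictConvexity

open Filter Topology Set Pool.V1138.AB

/-- The two disciplines: deadline to the beginning / to the end of service. -/
inductive Discipline
  | DBS
  | DES

/-- total abandonment rate with `i` jobs present -/
noncomputable def abandon (D : Discipline) (m : ℕ) (θ : ℝ) (i : ℕ) : ℝ :=
  match D with
  | .DBS => max ((i : ℝ) - m) 0 * θ
  | .DES => (i : ℝ) * θ

/-- death rate with `i` jobs present -/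
noncomputable def death (D : Discipline) (m : ℕ) (μ θ : ℝ) (i : ℕ) : ℝ :=
  min (i : ℝ) m * μ + abandon D m θ i

/-- `∏_{j=1}^{i} lam / d_j` -/
noncomputable def weight (D : Discipline) (m : ℕ) (μ θ lam : ℝ) (i : ℕ) : ℝ :=
  ∏ j ∈ Finset.Icc 1 i, lam / death D m μ θ j

/-- the stationary law -/
noncomputable def stat (D : Discipline) (m : ℕ) (μ θ lam : ℝ) (i : ℕ) : ℝ :=
  weight D m μ θ lam i / ∑' k, weight D m μ θ lam k

/-- `p` is a stationary probability distribution of the birth-death process (global balance) -/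
def IsStationary (D : Discipline) (m : ℕ) (μ θ lam : ℝ) (p : ℕ → ℝ) : Prop :=
  (∀ i, 0 ≤ p i) ∧ HasSum p 1 ∧ lam * p 0 = death D m μ θ 1 * p 1 ∧
    ∀ i, (lam + death D m μ θ (i+1)) * p (i+1) = lam * p i + death D m μ θ (i+2) * p (i+2)

/-- the mean abandonment rate `ℓ(lam) = ∑ π_i L(i)` -/
noncomputable def abRate (D : Discipline) (m : ℕ) (μ θ lam : ℝ) : ℝ :=
  ∑' i, stat D m μ θ lam i * abandon D m θ i

lemma cast_succ_cases (i m : ℕ) : ((i : ℝ) + 1 ≤ m) ∨ ((m : ℝ) ≤ i) := by
  rcases Nat.lt_or_ge i m with h | h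
  · left; exact_mod_cast h
  · right; exact_mod_cast h

/-- increments of `min i m` -/
lemma min_incr (i m : ℕ) :
    min (((i+1 : ℕ)) : ℝ) m - min (i : ℝ) m = if i < m then 1 else 0 := by
  split_ifs with h
  · have h1 : (i : ℝ) + 1 ≤ m := by exact_mod_cast h
    rw [min_eq_left (by push_cast; exact h1), min_eq_left (by linarith)]; push_cast; ring
  · have h1 : (m : ℝ) ≤ i := by exact_mod_cast (not_lt.mp h)
    rw [min_eq_right (by push_cast; linarith), min_eq_right h1]; ring

lemma max_incr (i m : ℕ) :
    max ((((i+1 : ℕ)) : ℝ) - m) 0 - max ((i : ℝ) - m) 0 = if i < m then 0 else 1 := by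
  split_ifs with h
  · have h1 : (i : ℝ) + 1 ≤ m := by exact_mod_cast h
    rw [max_eq_right (by push_cast; linarith), max_eq_right (by linarith)]; ring
  · have h1 : (m : ℝ) ≤ i := by exact_mod_cast (not_lt.mp h)
    rw [max_eq_left (by push_cast; linarith), max_eq_left (by linarith)]; push_cast; ring

noncomputable def svc (m : ℕ) (μ : ℝ) (i : ℕ) : ℝ := min (i : ℝ) m * μ

lemma svc_incr (m : ℕ) (μ : ℝ) (i : ℕ) : svc m μ (i+1) - svc m μ i = if i < m then μ else 0 := by
  unfold svc
  rw [← sub_mul, min_incr]; split_ifs <;> ring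

lemma ab_incr (D : Discipline) (m : ℕ) (θ : ℝ) (i : ℕ) :
    abandon D m θ (i+1) - abandon D m θ i = match D with
      | .DBS => if i < m then 0 else θ
      | .DES => θ := by
  cases D
  · simp only [abandon]
    rw [← sub_mul, max_incr]; split_ifs <;> ring
  · simp only [abandon]; push_cast; ring

lemma hyp (D : Discipline) (m : ℕ) {μ θ : ℝ} (hμ : 0 < μ) (hθ : 0 < θ) :
    Hyp (svc m μ) (abandon D m θ) (min μ θ) where
  s0 := by unfold svc; simp
  L0 := by cases D <;> simp [abandon]
  smono := fun i => by
    have := svc_incr m μ i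
    split_ifs at this <;> linarith
  Lmono := fun i => by
    have := ab_incr D m θ i
    cases D
    · simp only at this; split_ifs at this <;> linarith
    · simp only at this; linarith
  sconc := fun i => by
    have h1 := svc_incr m μ i
    have h2 := svc_incr m μ (i+1)
    rw [show i + 2 = i + 1 + 1 by ring, h1, h2]
    split_ifs
    · exact le_refl _
    · omega
    · exact hμ.le
    · exact le_refl _
  Lconv := fun i => by
    have h1 := ab_incr D m θ i
    have h2 := ab_incr D m θ (i+1)
    rw [show i + 2 = i + 1 + 1 by ring, h1, h2]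
    cases D
    · simp only
      split_ifs
      · exact le_refl _
      · exact hθ.le
      · omega
      · exact le_refl _
    · simp
  κpos := lt_min hμ hθ
  hκ := fun i => by
    have h1 := svc_incr m μ i
    have h2 := ab_incr D m θ i
    have e : svc m μ (i+1) + abandon D m θ (i+1) - (svc m μ i + abandon D m θ i)
      = (svc m μ (i+1) - svc m μ i) + (abandon D m θ (i+1) - abandon D m θ i) := by ring
    rw [e, h1, h2]
    cases D
    · simp only
      split_ifs
      · simp
      · simp
    · simp only
      split_ifs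
      · have := min_le_left μ θ; linarith
      · simp

lemma death_eq (D : Discipline) (m : ℕ) (μ θ : ℝ) : death D m μ θ = svc m μ + abandon D m θ := by
  funext i; simp [death, svc]

lemma weight_eq (D : Discipline) (m : ℕ) (μ θ lam : ℝ) :
    weight D m μ θ lam = a (death D m μ θ) lam := by
  funext i
  unfold weight a
  rw [Finset.range_eq_Ico, Finset.prod_Ico_add' (fun j => lam / death D m μ θ j) 0 i 1]
  rfl

lemma abRate_eq (D : Discipline) (m : ℕ) (μ θ : ℝ) (lam : ℝ) :
    abRate D m μ θ lam = ell (svc m μ + abandon D m θ) (abandon D m θ) lam := by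
  unfold abRate ell stat Z
  rw [weight_eq, death_eq, ← tsum_div_const]
  exact tsum_congr (fun i => by ring)

lemma ab_unbdd (D : Discipline) (m : ℕ) {θ : ℝ} (hθ : 0 < θ) (i : ℕ) :
    ∃ j ≥ i, abandon D m θ j < abandon D m θ (j+1) := by
  refine ⟨max i m, le_max_left _ _, ?_⟩
  have h := ab_incr D m θ (max i m)
  cases D
  · simp only at h
    rw [if_neg (by have := le_max_right i m; omega)] at h
    linarith
  · simp only at h; linarith

lemma stationary_iff (D : Discipline) (m : ℕ) {μ θ : ℝ} (hμ : 0 < μ) (hθ : 0 < θ)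
    {lam : ℝ} (hl : 0 < lam) (p : ℕ → ℝ) :
    IsStationary D m μ θ lam p ↔ p = stat D m μ θ lam := by
  have H := hyp D m hμ hθ
  have hde := death_eq D m μ θ
  have sa : Summable (weight D m μ θ lam) := by
    rw [weight_eq, hde]; exact a_summable H.κpos H.d0 H.dk lam
  have hpos : ∀ i, 0 < weight D m μ θ lam i := by
    rw [weight_eq, hde]; exact a_pos H.κpos H.d0 H.dk hl
  have hbal : ∀ i, weight D m μ θ lam (i+1) * death D m μ θ (i+1) = lam * weight D m μ θ lam i := by
    rw [weight_eq, hde]; exact a_bal H.κpos H.d0 H.dk lam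
  have hZ : 1 ≤ ∑' k, weight D m μ θ lam k := by
    rw [weight_eq, hde]; exact Z_ge H.κpos H.d0 H.dk hl
  have hdp : ∀ i, 0 < death D m μ θ (i+1) := by rw [hde]; exact d_pos H.κpos H.d0 H.dk
  have hw0 : weight D m μ θ lam 0 = 1 := by rw [weight_eq]; exact a_zero _ _
  constructor
  · rintro ⟨h0, hs, hb0, hb⟩
    have h1 : ∀ i, lam * p i = death D m μ θ (i+1) * p (i+1) := by
      intro i
      induction i with
      | zero => exact hb0
      | succ n ih =>
        have := hb n
        rw [show n + 1 + 1 = n + 2 by ring]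
        linarith
    have h2 : ∀ i, p i = p 0 * weight D m μ θ lam i := by
      intro i
      induction i with
      | zero => rw [hw0, mul_one]
      | succ n ih =>
        have h3 := h1 n
        have h4 := hbal n
        have h5 := (hdp n).ne'
        apply mul_left_cancel₀ h5
        rw [← h3, ih]
        linear_combination - p 0 * h4
    have h3 : ∑' i, p i = 1 := hs.tsum_eq
    have h4 : ∑' i, p i = p 0 * ∑' i, weight D m μ θ lam i := by
      rw [← sa.tsum_mul_left]; exact tsum_congr h2
    funext i
    unfold stat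
    rw [h2 i]
    have h5 : p 0 * ∑' i, weight D m μ θ lam i = 1 := by rw [← h4, h3]
    have h6 : (∑' i, weight D m μ θ lam i) ≠ 0 := by linarith
    field_simp
    linear_combination weight D m μ θ lam i * h5
  · rintro rfl
    have hZ0 : (∑' i, weight D m μ θ lam i) ≠ 0 := by linarith
    have hbal' : ∀ i, death D m μ θ (i+1) * stat D m μ θ lam (i+1) = lam * stat D m μ θ lam i := by
      intro i
      unfold stat
      have := hbal i
      field_simp
      linear_combination this
    refine ⟨fun i => div_nonneg (hpos i).le (by linarith), ?_, ?_, ?_⟩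
    · have := sa.hasSum.div_const (∑' i, weight D m μ θ lam i)
      rwa [div_self hZ0] at this
    · exact (hbal' 0).symm
    · intro i
      have h1 := hbal' i
      have h2 := hbal' (i+1)
      rw [show i + 1 + 1 = i + 2 by ring] at h2
      linarith

/-- For every `m ≥ 1`, `μ, θ > 0` and both disciplines, the mean abandonment rate is strictly
increasing and strictly convex on `(0,∞)`, real-analytic (so its derivative is smooth), and its
derivative increases strictly to `1`. -/
theorem result (D : Discipline) (m : ℕ) (hm : 1 ≤ m) (μ θ : ℝ) (hμ : 0 < μ) (hθ : 0 < θ) :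
    (∀ lam : ℝ, 0 < lam →
      (∀ p : ℕ → ℝ, IsStationary D m μ θ lam p ↔ p = stat D m μ θ lam) ∧
      HasSum (fun i => stat D m μ θ lam i * abandon D m θ i) (abRate D m μ θ lam)) ∧
    StrictMonoOn (abRate D m μ θ) (Ioi 0) ∧
    StrictConvexOn ℝ (Ioi 0) (abRate D m μ θ) ∧
    AnalyticOnNhd ℝ (abRate D m μ θ) (Ioi 0) ∧
    ContDiffOn ℝ ⊤ (deriv (abRate D m μ θ)) (Ioi 0) ∧
    StrictMonoOn (deriv (abRate D m μ θ)) (Ioi 0) ∧
    (∀ lam > 0, 0 < deriv (abRate D m μ θ) lam ∧ deriv (abRate D m μ θ) lam < 1) ∧
    Tendsto (deriv (abRate D m μ θ)) atTop (𝓝 1) := by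
  have H := hyp D m hμ hθ
  have he : abRate D m μ θ = ell (svc m μ + abandon D m θ) (abandon D m θ) :=
    funext (abRate_eq D m μ θ)
  refine ⟨fun lam hl => ⟨stationary_iff D m hμ hθ hl, ?_⟩, ?_⟩
  · refine Summable.hasSum ?_
    have h1 := (aL_summable H.κpos H.d0 H.dk hl H.Lnn H.Ld).div_const
      (∑' k, weight D m μ θ lam k)
    refine h1.congr (fun i => ?_)
    unfold stat
    rw [weight_eq, death_eq]
    ring
  · rw [he]
    refine H.main (ab_unbdd D m hθ) (C := m * μ) (fun i => ?_) (m-1) (fun lam hl => ?_)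
    · unfold svc
      exact mul_le_mul_of_nonneg_right (min_le_right _ _) hμ.le
    · have h1 := H.hpos (ab_unbdd D m hθ) hl (m-1)
      have h2 := H.hle hl (m-1)
      have h3 := H.hnn hl (m-1)
      have e1 := svc_incr m μ (m-1)
      have e2 := svc_incr m μ (m-1+1)
      have e3 := ab_incr D m θ (m-1)
      have e4 := ab_incr D m θ (m-1+1)
      rw [show m - 1 + 2 = m - 1 + 1 + 1 by ring, e1, e2, e3, e4, if_pos (by omega),
        if_neg (by omega)]
      cases D
      · simp only
        have q1 : m - 1 < m := by omega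
        have q2 : ¬ (m - 1 + 1 < m) := by omega
        rw [if_pos q1, if_neg q2, sub_zero, sub_zero]
        rcases h2.lt_or_eq with h4 | h4
        · have := mul_pos hθ (sub_pos.mpr h4)
          have := mul_nonneg hμ.le h3
          linarith
        · rw [h4]; simp; exact hμ
      · simp only
        rw [sub_self, zero_mul, add_zero, sub_zero]
        exact mul_pos hμ h1

end Pool.Agent.Results.MP_e714e3_pr.StrictConvexity
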